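import Mathlib

set_option autoImplicit false

namespace Pool.Agent.H.MP_4f8442_nt

open Finset

/-- robust restricted sums -/
def D (A : Set ℕ) (s k : ℕ) : Set ℕ :=
  {x | ∀ F : Finset ℕ, #F ≤ k → ∃ S : Finset ℕ, ↑S ⊆ A ∧ Disjoint S F ∧ #S ≤ s ∧ ∑ a ∈ S, a = x}

variable {A : Set ℕ} {s s' k k' x y : ℕ}

theorem D.mono (h : x ∈ D A s k) (a : s ≤ s') (b : k' ≤ k) : x ∈ D A s' k' := fun F c =>
  (h F (c.trans b)).imp fun _ d => ⟨d.1, d.2.1, d.2.2.1.trans a, d.2.2.2⟩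

theorem D.add (a : x ∈ D A s k) (b : y ∈ D A s' (k + s)) : x + y ∈ D A (s + s') k := fun F c => by
  obtain ⟨S, h1, h2, h3, rfl⟩ := a F c
  obtain ⟨T, g1, g2, g3, rfl⟩ := b (F ∪ S) ((card_union_le ..).trans (add_le_add c h3))
  rw [disjoint_union_right] at g2
  exact ⟨S ∪ T, by simp [h1, g1], by simp [h2, g2.1], (card_union_le ..).trans (add_le_add h3 g3),
    sum_union g2.2.symm⟩

theorem D.mul (i : ℕ) (a : x ∈ D A s (k + i * s)) : i * x ∈ D A (i * s) k := by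
  induction i generalizing k with
  | zero => exact fun F _ => ⟨∅, by simp⟩
  | succ i ih =>
    rw [Nat.succ_mul, Nat.succ_mul, add_comm (i * x), add_comm (i * s)]
    exact D.add (D.mono a le_rfl (by omega)) (ih (D.mono a le_rfl (by rw [Nat.succ_mul]; omega)))

theorem D.step (S : Finset ℕ) (h : k < #S) (a : ∀ e ∈ S, e ∈ A ∧ ∃ x ∈ D A s (k + 1), x + e = y) :
    y ∈ D A (s + 1) k := fun F c => by
  obtain ⟨e, he, hF⟩ := exists_mem_notMem_of_card_lt_card (c.trans_lt h)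
  obtain ⟨e1, x, hx, rfl⟩ := a e he
  obtain ⟨T, g1, g2, g3, rfl⟩ := hx (insert e F) ((card_insert_le ..).trans (by omega))
  rw [disjoint_insert_right] at g2
  exact ⟨insert e T, by simp [Set.insert_subset_iff, e1, g1], by simp [hF, g2.2],
    (card_insert_le ..).trans (by omega), by rw [sum_insert g2.1, add_comm]⟩

/-- shift -/
def sh (Z : Finset ℕ) (g : ℕ) : Finset ℕ := Z.map (addRightEmbedding g)

/-- growth under a shift -/
def ψ (Z : Finset ℕ) (g : ℕ) : ℕ := #(sh Z g \ Z)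

theorem tri (X Y Z : Finset ℕ) : #(X \ Z) ≤ #(X \ Y) + #(Y \ Z) :=
  (card_le_card (sdiff_triangle X Y Z)).trans (card_union_le ..)

theorem sh_sdiff (X Y : Finset ℕ) (g : ℕ) : #(sh X g \ sh Y g) = #(X \ Y) := by
  rw [sh, sh, ← Finset.map_sdiff, card_map]

theorem sh_sh (X : Finset ℕ) (a b : ℕ) : sh (sh X a) b = sh X (a + b) := by
  rw [sh, sh, sh, map_map]
  congr 1
  ext
  simp [add_assoc]

theorem mem_sh {X : Finset ℕ} {g : ℕ} : y ∈ sh X g ↔ ∃ x ∈ X, x + g = y := by simp [sh]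

theorem ψ_add (Z : Finset ℕ) (a b : ℕ) : ψ Z (a + b) ≤ ψ Z a + ψ Z b := by
  have := tri (sh Z (a + b)) (sh Z b) Z
  rwa [← sh_sh, sh_sdiff, sh_sh] at this

theorem ψ_sub (Z : Finset ℕ) (a b : ℕ) : ψ Z a ≤ ψ Z (a + b) + ψ Z b := by
  have := tri (sh Z (a + b)) Z (sh Z b)
  rwa [← sh_sh, sh_sdiff, sh_sh, card_sdiff_comm (s := Z) (by simp [sh])] at this

theorem ψ_mul (Z : Finset ℕ) (i a : ℕ) : ψ Z (i * a) ≤ i * ψ Z a := by
  induction i with
  | zero => simp [ψ, sh, sdiff_eq_empty_iff_subset, subset_iff]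
  | succ i ih =>
    rw [Nat.succ_mul, Nat.succ_mul]
    exact (ψ_add ..).trans (by omega)

theorem ψ_le (Z X Y : Finset ℕ) (g : ℕ) : ψ Z g ≤ #(Z \ X) + #(sh X g \ Y) + #(Y \ Z) := by
  have := tri (sh Z g) (sh X g) Z
  have := tri (sh X g) Y Z
  rw [sh_sdiff] at *
  unfold ψ
  omega

/-- pigeonhole on multiples -/
theorem ph (T : Finset ℕ) {M r g : ℕ} (h : T ⊆ range M) (a : r * g ≤ M) (b : 2 * M < (r + 1) * #T) (Z : Finset ℕ) :
    ∃ u ∈ T, ∃ v ∈ T, ψ Z (r.factorial * g) ≤ r.factorial * (ψ Z u + ψ Z v) := by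
  have key : ∀ i j u v, i < j → j ≤ r → u + i * g = v + j * g →
      ψ Z (r.factorial * g) ≤ r.factorial * (ψ Z u + ψ Z v) := fun i j u v c d e => by
    obtain ⟨l, rfl⟩ := Nat.exists_eq_add_of_lt c
    obtain ⟨w, hw⟩ := Nat.dvd_factorial (Nat.succ_pos l) (show l + 1 ≤ r by omega)
    have := ψ_sub Z ((l + 1) * g) v
    rw [show (l + 1) * g + v = u by nlinarith] at this
    refine le_trans (by rw [hw, mul_comm _ w, mul_assoc]; exact ψ_mul ..) (Nat.mul_le_mul ?_ this)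
    exact Nat.le_of_dvd r.factorial_pos ⟨_, hw.trans (mul_comm ..)⟩
  obtain ⟨⟨i, u⟩, p, ⟨j, v⟩, q, c, d⟩ := exists_ne_map_eq_of_card_lt_of_maps_to (s := range (r + 1) ×ˢ T)
    (t := range (2 * M)) (f := fun p => p.2 + p.1 * g) (by simpa using b) fun p q => by
      simp only [coe_product, coe_range, Set.mem_prod, Set.mem_Iio, mem_coe] at q ⊢
      nlinarith [mem_range.1 (h q.2), Nat.mul_le_mul_right g (Nat.lt_succ_iff.1 q.1)]
  simp only [mem_product, mem_range] at p q d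
  rcases lt_trichotomy i j with e | rfl | e
  · exact ⟨u, p.2, v, q.2, key i j u v e (by omega) d⟩
  · exact absurd (by simpa using d) c
  · exact ⟨v, q.2, u, p.2, key j i v u e (by omega) d.symm⟩

open Classical in
/-- window -/
noncomputable def Z (A : Set ℕ) (n s k : ℕ) : Finset ℕ := (range n).filter (· ∈ D A s k)

theorem mem_Z {n : ℕ} : x ∈ Z A n s k ↔ x < n ∧ x ∈ D A s k := by simp [Z]

theorem Z_mono {n : ℕ} (a : s ≤ s') (b : k' ≤ k) : Z A n s k ⊆ Z A n s' k' := fun _ h =>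
  mem_Z.2 ⟨(mem_Z.1 h).1, D.mono (mem_Z.1 h).2 a b⟩

theorem Z_card {n : ℕ} : #(Z A n s k) ≤ n := (card_le_card fun _ h => mem_range.2 (mem_Z.1 h).1).trans (card_range n).le

theorem sh_Z {n g : ℕ} (X : Finset ℕ) (h : ∀ x ∈ X, x < n) :
    #(sh X g \ Z A n s k) ≤ #((sh X g ∩ range n) \ Z A n s k) + g := by
  refine (tri _ (sh X g ∩ range n) _).trans ?_
  rw [add_comm]
  gcongr
  refine (card_le_card (t := Ico n (n + g)) fun y c => ?_).trans (by simp)
  simp only [mem_sdiff, mem_inter, mem_range, mem_sh, mem_Ico] at c ⊢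
  obtain ⟨⟨x, d, rfl⟩, e⟩ := c
  have := h x d
  exact ⟨not_lt.1 fun f => e ⟨⟨x, d, rfl⟩, f⟩, by omega⟩

theorem n1 {n g : ℕ} (h : g ∈ D A s' k) : #(sh (Z A n s (k + s')) g \ Z A n (s' + s) k) ≤ g := by
  refine (sh_Z _ fun x c => (mem_Z.1 c).1).trans ?_
  rw [sdiff_eq_empty_iff_subset.2, card_empty, zero_add]
  intro y c
  simp only [mem_inter, mem_range, mem_sh] at c
  obtain ⟨⟨x, d, rfl⟩, e⟩ := c
  exact mem_Z.2 ⟨e, add_comm g x ▸ D.add h (mem_Z.1 d).2⟩

theorem n4 {n : ℕ} (S : Finset ℕ) (h : ↑S ⊆ A) (a : k * k < #S) :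
    ∃ e ∈ S, k * #((sh (Z A n s (k + 1)) e ∩ range n) \ Z A n (1 + s) k) ≤ n := by
  classical
  by_contra! c
  have := card_mul_le_card_mul (fun e y => y ∈ (sh (Z A n s (k + 1)) e ∩ range n) \ Z A n (1 + s) k) (s := S)
    (t := range n) (m := n / k + 1) (n := k) (fun e he => ?_) fun y hy => ?_
  · rcases k.eq_zero_or_pos with rfl | p
    · simp at this a
      exact a.ne_empty this
    rw [card_range] at this
    nlinarith [Nat.lt_mul_div_succ n p, Nat.zero_le (n / k)]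
  · have := c e he
    refine le_trans ?_ (card_le_card (s := (sh (Z A n s (k + 1)) e ∩ range n) \ Z A n (1 + s) k) fun y d => ?_)
    · exact Nat.div_lt_of_lt_mul this
    exact (mem_bipartiteAbove _).2 ⟨(mem_inter.1 (mem_sdiff.1 d).1).2, d⟩
  by_contra! d
  obtain ⟨e, he⟩ := card_pos.1 (d.trans_le' k.zero_le)
  refine (mem_sdiff.1 ((mem_bipartiteBelow _).1 he).2).2 (mem_Z.2 ⟨mem_range.1 hy, add_comm s 1 ▸ D.step _ d fun e he => ?_⟩)
  obtain ⟨p, q⟩ := (mem_bipartiteBelow _).1 he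
  obtain ⟨x, f, g⟩ := mem_sh.1 (mem_inter.1 (mem_sdiff.1 q).1).1
  exact ⟨h p, x, (mem_Z.1 f).2, g⟩

theorem n9 (X Y : Finset ℕ) {q d m : ℕ} (p : 0 < d) (a : ∀ x ∈ X, q * x ∈ Y ∧ 2 * x + 2 * d ≤ m) (hq : 0 < q)
    (b : ∀ g < 2 * d, 4 * ψ Y (q * g) < #X) : ∃ u ∈ Y, ∃ v ∈ Y, ∃ i, u + v + q * i * d = q * m := by
  classical
  have hX : 0 < #X := (b 0 (by omega)).trans_le' (Nat.zero_le _)
  obtain ⟨x, hx, c⟩ : ∃ x ∈ X, #((range (2 * d)).bipartiteAbove (fun x g => q * x + q * g ∉ Y) x) < d / 2 + 1 := by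
    by_contra! c
    have := card_mul_le_card_mul _ c (n := #X / 4) fun g hg => ?_
    · rw [card_range] at this
      nlinarith [Nat.lt_mul_div_succ d two_pos, Nat.mul_div_le #X 4]
    refine le_trans (card_le_card_of_injOn (fun x => q * x + q * g) (fun x c => ?_) fun x _ y _ c => ?_)
      ((Nat.le_div_iff_mul_le four_pos).2 ((mul_comm ..).trans_le (b g (mem_range.1 hg)).le))
    · obtain ⟨e, f⟩ := (mem_bipartiteBelow _).1 c
      exact mem_sdiff.2 ⟨mem_sh.2 ⟨_, (a x e).1, rfl⟩, f⟩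
    exact Nat.eq_of_mul_eq_mul_left hq (add_right_cancel c)
  set B := (range (2 * d)).bipartiteAbove (fun x g => q * x + q * g ∉ Y) x
  obtain ⟨w, hw⟩ := Nat.exists_eq_add_of_le (a x hx).2
  have e := Nat.mod_lt w p
  obtain ⟨g, hg, f⟩ := exists_mem_notMem_of_card_lt_card (s := B ∪ B.image (w % d + d - ·)) (t := range (w % d + d + 1))
    ((card_union_le ..).trans_lt (by have := card_image_le (s := B) (f := (w % d + d - ·)); rw [card_range]; omega))
  rw [mem_range] at hg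
  simp only [mem_union, not_or, mem_image, not_exists, not_and, B, mem_bipartiteAbove, mem_range, not_not] at f
  refine ⟨_, f.1 (by omega), q * x + q * (w % d + d - g), ?_, w / d + 1, ?_⟩
  · by_contra c
    exact f.2 _ ⟨by omega, c⟩ (by omega)
  obtain ⟨z, hz⟩ := Nat.exists_eq_add_of_le (Nat.lt_succ_iff.1 hg)
  rw [hz, Nat.add_sub_cancel_left, hw]
  have := Nat.mod_add_div w d
  have : 2 * x + 2 * d + w = x + g + (x + z) + (w / d + 1) * d := by nlinarith
  rw [this]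
  ring

/-- sums with repetition -/
def R (A : Set ℕ) (j y : ℕ) : Prop := ∃ m : Multiset ℕ, Multiset.card m ≤ j ∧ (∀ x ∈ m, x ∈ A) ∧ m.sum = y

/-- sums without repetition -/
def R' (A : Set ℕ) (j y : ℕ) : Prop := ∃ S : Finset ℕ, ↑S ⊆ A ∧ #S ≤ j ∧ ∑ a ∈ S, a = y

open Classical in
theorem la (A : Set ℕ) (L j : ℕ) : #{y ∈ range L | R A (j + 1) y ∧ ¬R' A (j + 1) y} ≤ j * #{y ∈ range L | R A j y} := by
  have : ∀ y, ∃ (b : ℕ) (m : Multiset ℕ), R A (j + 1) y ∧ ¬R' A (j + 1) y → b ∈ m ∧ Multiset.card m ≤ j ∧ (∀ x ∈ m, x ∈ A) ∧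
      b + m.sum = y ∧ ∀ l : Multiset ℕ, Multiset.card l ≤ j + 1 → (∀ x ∈ l, x ∈ A) → l.sum = y →
        #l.toFinset ≤ #m.toFinset := fun y => by
    by_cases h : R A (j + 1) y ∧ ¬R' A (j + 1) y
    swap
    · exact ⟨0, 0, fun c => absurd c h⟩
    obtain ⟨m, ⟨a, b, c⟩, d⟩ := Set.Finite.exists_maximalFor' (fun m : Multiset ℕ => #m.toFinset)
      {m | Multiset.card m ≤ j + 1 ∧ (∀ x ∈ m, x ∈ A) ∧ m.sum = y} ((Set.finite_Iic (j + 1)).subset (by
        rintro _ ⟨m, c, rfl⟩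
        exact (Multiset.toFinset_card_le m).trans c.1)) h.1
    have : ¬m.Nodup := fun e => h.2 ⟨⟨m, e⟩, b, a, by simpa using c⟩
    simp only [Multiset.nodup_iff_ne_cons_cons, not_forall, not_not] at this
    obtain ⟨e, l, rfl⟩ := this
    refine ⟨e, e ::ₘ l, fun _ => ⟨by simp, by simpa using a, fun x f => b x (Multiset.mem_cons_of_mem f),
      by simpa using c, fun l f g i => ?_⟩⟩
    simpa using not_lt.1 fun p => p.not_ge (d ⟨f, g, i⟩ p.le)
  choose b m h using this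
  refine card_le_mul_card_image_of_maps_to (f := fun y => (m y).sum) (fun y c => ?_) _ fun v _ => ?_
  · rw [mem_filter, mem_range] at c ⊢
    obtain ⟨-, p, q, r, -⟩ := h y c.2
    exact ⟨by omega, _, p, q, rfl⟩
  set W := {a ∈ {y ∈ range L | R A (j + 1) y ∧ ¬R' A (j + 1) y} | (m a).sum = v}
  rcases W.eq_empty_or_nonempty with c | c
  · simp [c]
  obtain ⟨z, hz, c⟩ := W.exists_max_image (fun y => #(m y).toFinset) c
  have w : ∀ y ∈ W, _ := fun y c => And.intro (h y (mem_filter.1 (mem_filter.1 c).1).2) (mem_filter.1 c).2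
  obtain ⟨⟨-, p, q, -, -⟩, r⟩ := w z hz
  refine (card_le_card_of_injOn b (t := (m z).toFinset) (fun y d => ?_) fun y d y' d' e => ?_).trans
    ((Multiset.toFinset_card_le _).trans p)
  · obtain ⟨⟨a1, -, a2, a3, a4⟩, a5⟩ := w y d
    have := (a4 (b y ::ₘ m z) (by simpa using p) (by simpa [a2 _ a1] using q) (by simp; omega)).trans (c y d)
    by_contra f
    rw [Multiset.toFinset_cons, card_insert_of_notMem f] at this
    omega
  have := (w y d).1.2.2.2.1
  have := (w y' d').1.2.2.2.1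
  have := (w y d).2
  have := (w y' d').2
  omega

open Classical in
theorem lp (A : Set ℕ) (L j k : ℕ) : let y := #{y ∈ range L | R' A (j + 1) y}; let σ := #{y ∈ range L | R A j y}
    y * (y - (j + 1) * σ - #(Z A (2 * L) (2 * (j + 1)) k)) ≤ 2 * L * (2 * (k * σ)) := by
  intro y σ
  have : ∀ y, ∃ S : Finset ℕ, R' A (j + 1) y → ↑S ⊆ A ∧ #S ≤ j + 1 ∧ ∑ a ∈ S, a = y := fun y => by
    by_cases h : R' A (j + 1) y
    · exact h.imp fun _ h _ => h
    exact ⟨∅, fun c => absurd c h⟩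
  choose K h using this
  set Y := {y ∈ range L | R' A (j + 1) y}
  have pop : ∀ F : Finset ℕ, #{u ∈ Y | ¬Disjoint (K u) F} ≤ #F * σ := fun F => by
    refine le_trans (card_le_card (t := F.biUnion fun e => sh {y ∈ range L | R A j y} e) fun u c => ?_)
      (card_biUnion_le_card_mul _ _ _ fun e _ => (card_map _).le)
    simp only [Y, mem_filter, mem_range, not_disjoint_iff] at c
    obtain ⟨⟨p, q⟩, e, c, d⟩ := c
    obtain ⟨a1, a2, a3⟩ := h u q
    have := sum_erase_add (K u) (fun a => a) c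
    refine mem_biUnion.2 ⟨e, d, mem_sh.2 ⟨∑ x ∈ (K u).erase e, x, mem_filter.2 ⟨mem_range.2 (by omega), ((K u).erase e).val, ?_,
      fun x f => a1 (mem_of_mem_erase f), sum_val _⟩, this.trans a3⟩⟩
    rw [card_val, card_erase_of_mem c]
    omega
  refine (card_mul_le_card_mul (fun u y => y ∉ D A (2 * (j + 1)) k ∧ ∃ v ∈ Y, u + v = y ∧ Disjoint (K v) (K u)) (s := Y)
    (t := range (2 * L)) (fun u hu => ?_) fun z _ => ?_).trans_eq (by rw [card_range])
  · have a := pop (K u)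
    have := (h u (mem_filter.1 hu).2).2.1
    refine le_trans ?_ (card_le_card (s := sh {v ∈ Y | Disjoint (K v) (K u)} u \ Z A (2 * L) (2 * (j + 1)) k) fun z c => ?_)
    · refine le_trans (Nat.sub_le_sub_right ?_ _) (le_card_sdiff ..)
      have := card_filter_add_card_filter_not (s := Y) (fun v => Disjoint (K v) (K u))
      have := a.trans (Nat.mul_le_mul_right σ ‹#(K u) ≤ j + 1›)
      rw [sh, card_map]
      change #Y - _ ≤ _
      omega
    simp only [mem_sdiff, mem_sh, mem_filter, mem_Z, mem_bipartiteAbove, mem_range] at c ⊢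
    obtain ⟨⟨v, ⟨p, q⟩, rfl⟩, c⟩ := c
    have : v + u < 2 * L := by
      have := mem_range.1 (mem_filter.1 p).1
      have := mem_range.1 (mem_filter.1 hu).1
      omega
    exact ⟨this, fun d => c ⟨this, d⟩, v, p, add_comm .., q⟩
  by_cases c : z ∈ D A (2 * (j + 1)) k
  · simp [bipartiteBelow, c]
  simp only [D, Set.mem_ofPred_eq, not_forall] at c
  obtain ⟨F, p, c⟩ := c
  have := (pop F).trans (Nat.mul_le_mul_right σ p)
  refine (card_le_card (t := {u ∈ Y | ¬Disjoint (K u) F} ∪ {u ∈ Y | ¬Disjoint (K u) F}.image (z - ·)) fun u d => ?_).trans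
    ((card_union_le ..).trans ((add_le_add this (card_image_le.trans this)).trans (by omega)))
  obtain ⟨hu, -, v, hv, rfl, q⟩ := (mem_bipartiteBelow _).1 d
  by_contra e
  simp only [mem_union, mem_filter, mem_image, not_or, not_and, not_not, not_exists] at e
  obtain ⟨a1, a2, a3⟩ := h u (mem_filter.1 hu).2
  obtain ⟨b1, b2, b3⟩ := h v (mem_filter.1 hv).2
  refine c ⟨K v ∪ K u, by simp [a1, b1], disjoint_union_left.2 ⟨?_, e.1 hu⟩, (card_union_le ..).trans (by omega),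
    by rw [sum_union q]; omega⟩
  by_contra f
  exact e.2 v ⟨hv, f⟩ (by omega)

end Pool.Agent.H.MP_4f8442_nt
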