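import Pool.Agent.H.MP_4f8442_nt.A

set_option autoImplicit false

namespace Pool.Agent.H.MP_4f8442_nt

open Finset Filter

variable {ι : Type} {U : Ultrafilter ι} {A : ι → Set ℕ} {n N L M : ι → ℕ} {h : ℕ}

/-- separation of scales -/
def Ll (U : Filter ι) (a b : ι → ℕ) : Prop := ∀ C, ∀ᶠ t in U, C * a t ≤ b t

theorem Ll.add {U : Filter ι} {a b c : ι → ℕ} (p : Ll U a c) (q : Ll U b c) : Ll U (fun t => a t + b t) c := fun C =>
  ((p (2 * C)).and (q (2 * C))).mono fun _ h => by nlinarith [h.1, h.2]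

theorem Ll.mul {U : Filter ι} {a c : ι → ℕ} (i : ℕ) (p : Ll U a c) : Ll U (fun t => i * a t) c := fun C =>
  (p (C * i)).mono fun _ h => by rwa [← mul_assoc]

theorem Ll.mono {U : Filter ι} {a b c : ι → ℕ} (p : Ll U b c) (q : ∀ᶠ t in U, a t ≤ b t) : Ll U a c := fun C =>
  ((p C).and q).mono fun _ h => (Nat.mul_le_mul_left C h.2).trans h.1

theorem pos (hA : ∀ t, ∀ y ≥ N t, R (A t) h y) (hL : Ll U (fun t => N t + 1) L) :
    ∃ s c, ∀ k, ∀ᶠ t in U, L t ≤ c * #(Z (A t) (2 * L t) s k) := by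
  classical
  obtain ⟨j, p, q⟩ := Nat.exists_not_and_succ_of_not_zero_of_exists
    (p := fun j => ¬Ll U (fun t => #{y ∈ range (L t) | R (A t) j y}) L) (not_not.2 (hL.mono (.of_forall fun t =>
      (card_le_one.2 fun a c b d => by
        obtain ⟨m, e, -, rfl⟩ := (mem_filter.1 c).2
        obtain ⟨l, f, -, rfl⟩ := (mem_filter.1 d).2
        rw [Multiset.card_eq_zero.1 (Nat.le_zero.1 e), Multiset.card_eq_zero.1 (Nat.le_zero.1 f)]).trans (by omega))))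
    ⟨h, fun c => by
      obtain ⟨t, a, b⟩ := ((c 3).and (hL 2)).exists
      have := card_le_card (s := Ico (N t) (L t)) (t := {y ∈ range (L t) | R (A t) h y}) fun y d =>
        mem_filter.2 ⟨mem_range.2 (mem_Ico.1 d).2, hA t y (mem_Ico.1 d).1⟩
      rw [Nat.card_Ico] at this
      simp only at a b
      omega⟩
  rw [not_not] at p
  simp only [Ll, not_forall, ← Ultrafilter.eventually_not, not_le] at q
  obtain ⟨c, q⟩ := q
  refine ⟨2 * (j + 1), 8 * c, fun k => ?_⟩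
  filter_upwards [q, p (8 * c * (j + 1)), p (32 * c * c * k + 1)] with t a b d
  have e := lp (A t) (L t) j k
  have f := la (A t) (L t) j
  have g := card_le_card (s := {y ∈ range (L t) | R (A t) (j + 1) y}) (t := {y ∈ range (L t) | R' (A t) (j + 1) y} ∪
    {y ∈ range (L t) | R (A t) (j + 1) y ∧ ¬R' (A t) (j + 1) y}) fun y => by
      simp only [mem_filter, mem_union]
      tauto
  replace g := a.trans_le (Nat.mul_le_mul_left c (g.trans ((card_union_le ..).trans (add_le_add_right f _))))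
  simp only at e
  generalize #{y ∈ range (L t) | R' (A t) (j + 1) y} = y at *
  generalize #{y ∈ range (L t) | R (A t) j y} = σ at *
  generalize #(Z (A t) (2 * L t) (2 * (j + 1)) k) = z at *
  by_contra! i
  have h1 : L t ≤ 2 * c * y := by nlinarith [Nat.zero_le (c * σ), Nat.zero_le (c * (j * σ))]
  have h2 : L t ≤ 4 * c * (y - (j + 1) * σ - z) := by
    have := Nat.mul_le_mul_left c (show y ≤ y - (j + 1) * σ - z + (j + 1) * σ + z by omega)
    nlinarith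
  have h3 : L t * L t ≤ L t * (32 * c * c * k * σ) := by
    have := Nat.mul_le_mul_left (8 * c * c) e
    nlinarith [Nat.mul_le_mul h1 h2]
  have := Nat.le_of_mul_le_mul_left h3 (by omega)
  rcases σ.eq_zero_or_pos with rfl | _
  · omega
  nlinarith

theorem diff (hn : ∀ᶠ t in U, 0 < n t) (C : ℕ) : ∃ s₀, ∀ s, ∃ k₁, ∀ k ≥ k₁, ∀ s' ≥ s₀, ∀ k', ∀ᶠ t in U,
    C * #(Z (A t) (n t) s k \ Z (A t) (n t) s' k') ≤ n t := by
  obtain ⟨j, p, q⟩ := Nat.exists_not_and_succ_of_not_zero_of_exists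
    (p := fun j => ¬∃ s, ∀ k, ∀ᶠ t in U, j * n t ≤ C * #(Z (A t) (n t) s k)) (by simp) ⟨C + 1, fun ⟨s, c⟩ => by
      obtain ⟨t, a, b⟩ := ((c 0).and hn).exists
      nlinarith [Nat.mul_le_mul_left C (Z_card (A := A t) (n := n t) (s := s) (k := 0))]⟩
  obtain ⟨s₀, p⟩ := not_not.1 p
  simp only [not_exists, not_forall, ← Ultrafilter.eventually_not, not_le] at q
  refine ⟨s₀, fun s => ?_⟩
  obtain ⟨k₁, q⟩ := q (max s s₀)
  refine ⟨k₁, fun k a s' b k' => ?_⟩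
  filter_upwards [q, p (max k₁ k')] with t c d
  have e := card_sdiff_add_card_eq_card (Z_mono (A := A t) (n := n t) (le_max_right s s₀) (le_max_left k₁ k'))
  have := card_le_card (sdiff_subset_sdiff (Z_mono (A := A t) (n := n t) (le_max_left s s₀) a)
    (Z_mono (A := A t) (n := n t) b (le_max_right k₁ k')))
  nlinarith [Nat.mul_le_mul_left C this, congrArg (C * ·) e]

/-- the iterated filter -/
def Φ (U : Filter ι) : Filter (ℕ × ℕ × ι) := atTop.curry (atTop.curry U)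

theorem ev {p : ℕ × ℕ × ι → Prop} : (∀ᶠ x in Φ U, p x) ↔ ∀ᶠ s in atTop, ∀ᶠ k in atTop, ∀ᶠ t in U, p (s, k, t) := by
  simp only [Φ, eventually_curry_iff]

theorem ev' {p : ι → Prop} (a : ∀ᶠ t in U, p t) : ∀ᶠ x in Φ U, p x.2.2 :=
  ev.2 (.of_forall fun _ => .of_forall fun _ => a)

instance : (Φ (U : Filter ι)).NeBot := ⟨fun c => by
  have : ∀ᶠ x in Φ (U : Filter ι), False := by simp [c]
  obtain ⟨_, a⟩ := (ev.1 this).exists
  obtain ⟨_, a⟩ := a.exists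
  exact a.exists.elim fun _ => id⟩

/-- null shifts -/
def Nu (U : Ultrafilter ι) (A : ι → Set ℕ) (n : ι → ℕ) (g : ℕ × ℕ × ι → ℕ) : Prop :=
  Ll (Φ U) (fun p => ψ (Z (A p.2.2) (n p.2.2) p.1 p.2.1) (g p)) fun p => n p.2.2

theorem n0 (hn : ∀ᶠ t in U, 0 < n t) (s' : ℕ) {g : ℕ × ℕ × ι → ℕ} (a : Ll (Φ U) (fun p =>
    #(sh (Z (A p.2.2) (n p.2.2) p.1 (p.2.1 + s')) (g p) \ Z (A p.2.2) (n p.2.2) (s' + p.1) p.2.1)) fun p => n p.2.2) :
    Nu U A n g := by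
  have df : ∀ a b : ℕ → ℕ, Ll (Φ U) (fun p => #(Z (A p.2.2) (n p.2.2) (a p.1) p.2.1 \ Z (A p.2.2) (n p.2.2) p.1 (b p.2.1)))
      fun p => n p.2.2 := fun a b C => by
    obtain ⟨s₀, c⟩ := diff (A := A) hn C
    refine ev.2 ((eventually_ge_atTop s₀).mono fun s d => ?_)
    obtain ⟨k₁, c⟩ := c (a s)
    exact (eventually_ge_atTop k₁).mono fun k e => c k e s d (b k)
  exact (((df id (· + s')).add a).add (df (s' + ·) id)).mono (.of_forall fun p => ψ_le ..)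

theorem Ll.up {a b : ι → ℕ} (p : Ll U a b) : Ll (Φ U) (fun p => a p.2.2) fun p => b p.2.2 := fun C => ev' (p C)

theorem n3 (hA : ∀ t, ∀ y ≥ N t, R (A t) h y) (hL : Ll U (fun t => N t + 1) L) (hn : Ll U L n) :
    ∃ r > 0, ∀ g : ℕ × ℕ × ι → ℕ, (∀ᶠ p in Φ U, r * g p ≤ 2 * L p.2.2) → Nu U A n fun p => r.factorial * g p := by
  have n0' : ∀ᶠ t in U, 0 < n t := ((hL 1).and (hn 1)).mono fun t c => by
    simp only at c
    omega
  obtain ⟨s, c, hc⟩ := pos hA hL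
  refine ⟨4 * c + 1, by omega, fun g hg => ?_⟩
  have : ∀ᶠ p in Φ U, ∃ u : ℕ × ℕ, u.1 ∈ Z (A p.2.2) (2 * L p.2.2) s p.2.1 ∧ u.2 ∈ Z (A p.2.2) (2 * L p.2.2) s p.2.1 ∧
      ψ (Z (A p.2.2) (n p.2.2) p.1 p.2.1) ((4 * c + 1).factorial * g p) ≤ (4 * c + 1).factorial *
        (ψ (Z (A p.2.2) (n p.2.2) p.1 p.2.1) u.1 + ψ (Z (A p.2.2) (n p.2.2) p.1 p.2.1) u.2) := by
    filter_upwards [hg, (ev (p := fun p => L p.2.2 ≤ c * #(Z (A p.2.2) (2 * L p.2.2) s p.2.1))).2 (.of_forall fun _ =>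
      .of_forall hc), ev' (hL 1)] with p a b d
    obtain ⟨u, e, v, f, i⟩ := ph (Z (A p.2.2) (2 * L p.2.2) s p.2.1) (fun _ e => mem_range.2 (mem_Z.1 e).1) a (by
      rcases (#(Z (A p.2.2) (2 * L p.2.2) s p.2.1)).eq_zero_or_pos with e | e
      · rw [e] at b
        omega
      nlinarith) (Z (A p.2.2) (n p.2.2) p.1 p.2.1)
    exact ⟨(u, v), e, f, i⟩
  obtain ⟨u, hu⟩ := this.choice
  refine ((Ll.add (n0 n0' s ?_) (n0 n0' s ?_)).mul _).mono (hu.mono fun _ a => a.2.2)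
  · exact (hn.mul 2).up.mono (hu.mono fun p a => (n1 (mem_Z.1 a.1).2).trans (mem_Z.1 a.1).1.le)
  exact (hn.mul 2).up.mono (hu.mono fun p a => (n1 (mem_Z.1 a.2.1).2).trans (mem_Z.1 a.2.1).1.le)

theorem ker (hA : ∀ t, ∀ y ≥ N t, R (A t) h y) (hM : Ll U (fun t => N t + 1) M) (hn : Ll U M n) :
    ∃ q > 0, (∀ i, (Nu U A n fun _ => i) → q ∣ i) ∧ ∀ L, Ll U (fun t => N t + 1) L → Ll U L n →
      ∀ g : ℕ × ℕ × ι → ℕ, (∀ᶠ p in Φ U, g p ≤ L p.2.2 ∧ q ∣ g p) → Nu U A n g := by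
  classical
  have one : ∀ L, Ll U (fun t => N t + 1) L → ∀ r, ∀ᶠ p in Φ U, r * 1 ≤ 2 * L p.2.2 := fun L a r =>
    (ev' (a r)).mono fun p c => by nlinarith [Nat.zero_le (r * N p.2.2)]
  have ex : ∃ q > 0, Nu U A n fun _ => q := by
    obtain ⟨r, -, b⟩ := n3 hA hM hn
    exact ⟨_, by positivity, b _ (one M hM r)⟩
  obtain ⟨p, q⟩ := Nat.find_spec ex
  have dv : ∀ i, (Nu U A n fun _ => i) → Nat.find ex ∣ i := fun i a => by
    by_contra b
    refine Nat.find_min ex (Nat.mod_lt i p) ⟨Nat.pos_of_ne_zero fun c => b (Nat.dvd_of_mod_eq_zero c),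
      (Ll.add a (q.mul (i / Nat.find ex))).mono (.of_forall fun x => ?_)⟩
    refine (ψ_sub _ _ (i / Nat.find ex * Nat.find ex)).trans (add_le_add ?_ (ψ_mul ..))
    rw [Nat.mod_add_div']
  refine ⟨_, p, dv, fun L a b g c => ?_⟩
  obtain ⟨r, r0, d⟩ := n3 hA a b
  refine (Ll.add (d (fun p => g p / r.factorial) (c.mono fun x e => ?_)) (q.mul r.factorial)).mono
    (c.mono fun x e => ?_)
  · nlinarith [Nat.mul_div_le (g x) r.factorial, Nat.mul_le_mul_right (g x / r.factorial) r.self_le_factorial, e.1]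
  obtain ⟨w, hw⟩ := (Nat.dvd_mod_iff (mul_one r.factorial ▸ dv _ (d _ (one L a r)))).2 e.2
  have := ψ_add (Z (A x.2.2) (n x.2.2) x.1 x.2.1) (r.factorial * (g x / r.factorial)) (g x % r.factorial)
  rw [Nat.div_add_mod, hw, mul_comm _ w] at this
  refine this.trans (add_le_add le_rfl ((ψ_mul ..).trans (Nat.mul_le_mul_right _ ?_)))
  nlinarith [Nat.mod_lt (g x) r.factorial_pos]

open Classical in
theorem few (hM : Ll U (fun t => N t + 1) M) (hn : Ll U M n) {q : ℕ} (p : 0 < q) (a : ∀ i, (Nu U A n fun _ => i) → q ∣ i)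
    (b : ∀ g : ℕ × ℕ × ι → ℕ, (∀ᶠ p in Φ U, g p ≤ M p.2.2 ∧ q ∣ g p) → Nu U A n g) :
    ∃ C, ∀ᶠ t in U, #{e ∈ range (M t + 1) | e ∈ A t ∧ ¬q ∣ e} ≤ C := by
  have n0' : ∀ᶠ t in U, 0 < n t := ((hM 1).and (hn 1)).mono fun t c => by
    simp only at c
    omega
  have : ∀ i, ∃ C, ¬q ∣ i → ∀ᶠ t in U, #{e ∈ range (M t + 1) | e ∈ A t ∧ e % q = i} ≤ C := fun i => by
    by_contra! c
    refine (c 0).1 (a i ?_)
    have : ∀ᶠ x in Φ U, ∃ e, e ≤ M x.2.2 ∧ e % q = i ∧ x.2.1 * #((sh (Z (A x.2.2) (n x.2.2) x.1 (x.2.1 + 1)) e ∩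
        range (n x.2.2)) \ Z (A x.2.2) (n x.2.2) (1 + x.1) x.2.1) ≤ n x.2.2 :=
      ev.2 (.of_forall fun s => .of_forall fun k => (c (k * k)).2.mono
        fun t d => by
          obtain ⟨e, f, g⟩ := n4 (A := A t) (n := n t) (s := s) {e ∈ range (M t + 1) | e ∈ A t ∧ e % q = i}
            (fun e f => (mem_filter.1 (mem_coe.1 f)).2.1) d
          exact ⟨e, Nat.lt_succ_iff.1 (mem_range.1 (mem_filter.1 f).1), (mem_filter.1 f).2.2, g⟩)
    obtain ⟨e, he⟩ := this.choice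
    refine (Ll.add (n0 (g := e) n0' 1 ((Ll.add (a := fun x => #((sh (Z (A x.2.2) (n x.2.2) x.1 (x.2.1 + 1)) (e x) ∩
      range (n x.2.2)) \ Z (A x.2.2) (n x.2.2) (1 + x.1) x.2.1)) (fun C => ?_) hn.up).mono (he.mono fun x d =>
      (sh_Z _ fun _ f => (mem_Z.1 f).1).trans (add_le_add le_rfl d.1)))) (b (fun x => q * (e x / q)) (he.mono fun x d =>
      ⟨(Nat.mul_div_le ..).trans d.1, dvd_mul_right ..⟩))).mono (he.mono fun x d => ?_)
    · filter_upwards [he, (ev (U := U) (p := fun x => C ≤ x.2.1)).2 (.of_forall fun _ => (eventually_ge_atTop C).mono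
        fun _ d => .of_forall fun _ => d)] with x d f using (Nat.mul_le_mul_right _ f).trans d.2.2
    have := ψ_sub (Z (A x.2.2) (n x.2.2) x.1 x.2.1) i (q * (e x / q))
    rwa [← d.2.1, Nat.mod_add_div, d.2.1] at this
  choose C hC using this
  refine ⟨∑ i ∈ range q with ¬q ∣ i, C i, ((eventually_all_finset {i ∈ range q | ¬q ∣ i}).2 fun i c =>
    hC i (mem_filter.1 c).2).mono fun t c => le_trans (le_trans (card_le_card fun e d => ?_) card_biUnion_le) (sum_le_sum c)⟩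
  simp only [mem_biUnion, mem_filter, mem_range] at d ⊢
  exact ⟨_, ⟨Nat.mod_lt e p, by rw [Nat.dvd_mod_iff dvd_rfl]; exact d.2.2⟩, d.1, d.2.1, rfl⟩

theorem spill (hM : Ll U (fun t => N t + 1) M) (hn : Ll U M n) {q : ℕ} (b : ∀ L, Ll U (fun t => N t + 1) L → Ll U L n →
    ∀ g : ℕ × ℕ × ι → ℕ, (∀ᶠ p in Φ U, g p ≤ L p.2.2 ∧ q ∣ g p) → Nu U A n g) (C : ℕ) :
    ∃ s₀, ∀ s ≥ s₀, ∃ k₁, ∀ k ≥ k₁, ∃ c, ∀ᶠ t in U, ∀ g, c * g ≤ n t → q ∣ g → C * ψ (Z (A t) (n t) s k) g ≤ n t := by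
  have n0' : ∀ᶠ t in U, 0 < n t := ((hM 1).and (hn 1)).mono fun t c => by
    simp only at c
    omega
  obtain ⟨s₀, a⟩ := diff (A := A) n0' (3 * C)
  refine ⟨s₀, fun s hs => ?_⟩
  obtain ⟨k₁, a₁⟩ := a s
  refine ⟨k₁, fun k hk => ?_⟩
  by_contra! c
  obtain ⟨G, e, f⟩ : ∃ G, Ll U G n ∧ ∀ᶠ t in U, q ∣ G t ∧ n t < C * ψ (Z (A t) (n t) s k) (G t) :=
    ⟨fun t => sInf {g | q ∣ g ∧ n t < C * ψ (Z (A t) (n t) s k) g}, fun i => (c i).mono fun t ⟨g, d, e⟩ =>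
      (Nat.mul_le_mul_left i (Nat.sInf_le e)).trans d, (c 0).mono fun t ⟨g, _, e⟩ =>
      Nat.sInf_mem (s := {g | q ∣ g ∧ n t < C * ψ (Z (A t) (n t) s k) g}) ⟨g, e⟩⟩
  have d : Nu U A n fun x => G x.2.2 := b (fun t => G t + M t) (fun i => (hM i).mono fun _ d =>
    d.trans (Nat.le_add_left ..)) (e.add hn) _ (ev' (p := fun t => G t ≤ G t + M t ∧ q ∣ G t)
    (f.mono fun _ d => ⟨Nat.le_add_right .., d.1⟩))
  obtain ⟨s', d, hs'⟩ := ((ev.1 (d (3 * C))).and (eventually_ge_atTop s₀)).exists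
  obtain ⟨k₂, a₂⟩ := a s'
  obtain ⟨k', d, hk'⟩ := (d.and (eventually_ge_atTop k₂)).exists
  obtain ⟨t, ⟨d1, d2⟩, d3, d4⟩ := ((d.and f).and ((a₁ k hk s' hs' k').and (a₂ k' hk' s hs k))).exists
  have := Nat.mul_le_mul_left (3 * C) (ψ_le (Z (A t) (n t) s k) (Z (A t) (n t) s' k') (Z (A t) (n t) s' k') (G t))
  change 3 * C * #(sh (Z (A t) (n t) s' k') (G t) \ Z (A t) (n t) s' k') ≤ n t at d1
  linarith [d2.2]

open Classical in
theorem main (hA : ∀ t, ∀ y ≥ N t, R (A t) h y) (hM : Ll U (fun t => N t + 1) M) (hn : Ll U M n) :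
    ∃ q > 0, ∃ C, (∀ᶠ t in U, #{e ∈ range (M t + 1) | e ∈ A t ∧ ¬q ∣ e} ≤ C) ∧ ∀ m : ι → ℕ,
      (∀ᶠ t in U, q ∣ m t ∧ n t ≤ 2 * m t ∧ m t ≤ n t) → ∀ k, ∃ s, ∀ᶠ t in U, m t ∈ D (A t) s k := by
  obtain ⟨q, p, a, b⟩ := ker hA hM hn
  obtain ⟨C, c⟩ := few hM hn p a (b M hM hn)
  refine ⟨q, p, C, c, fun m hm k => ?_⟩
  have Nn : Ll U (fun t => N t + 1) n := fun i => ((hM i).and (hn 1)).mono fun t d => d.1.trans (by simpa using d.2)
  have sc : ∀ c > 0, Ll U (fun t => N t + 1) fun t => n t / c := fun c d i => (Nn (i * c)).mono fun t e =>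
    (Nat.le_div_iff_mul_le d).2 (by simp only at e ⊢; linarith)
  obtain ⟨s₁, c₁, h₁⟩ := pos hA (sc (16 * q) (by omega))
  obtain ⟨s₀, d⟩ := spill hM hn b (4 * (32 * q * c₁ + 1))
  obtain ⟨k₁, d⟩ := d (max s₀ (q * s₁)) (le_max_left ..)
  set s := max s₀ (q * s₁)
  obtain ⟨c, d⟩ := d (max k₁ (k + s)) (le_max_left ..)
  set k₀ := max k₁ (k + s)
  obtain ⟨s₂, c₂, h₂⟩ := pos hA (sc (16 * q * (c + 1)) (by positivity))
  set I := 64 * q * (c + 1) * c₂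
  refine ⟨s + s + I * s₂, ?_⟩
  filter_upwards [hm, h₁ (k₀ + q * s₁), h₂ (k + (s + s) + I * s₂), d, sc (16 * q) (by omega) 1,
    sc (16 * q * (c + 1)) (by positivity) (c₂ + 1)] with t ⟨⟨m, e1⟩, e2, e3⟩ f1 f2 f3 f4 f5
  have g1 := Nat.mul_div_le (n t) (16 * q)
  have g2 := Nat.mul_div_le (n t) (16 * q * (c + 1))
  have g3 := Nat.lt_mul_div_succ (n t) (show 0 < 16 * q by omega)
  have g4 := Nat.lt_mul_div_succ (n t) (show 0 < 16 * q * (c + 1) by positivity)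
  generalize n t / (16 * q) = L₁ at *
  generalize n t / (16 * q * (c + 1)) = L₂ at *
  have l2 : c₂ < L₂ := by nlinarith [Nat.zero_le (N t), Nat.zero_le (c₂ * N t)]
  obtain ⟨d, i1, i2⟩ := (Z (A t) (2 * L₂) s₂ (k + (s + s) + I * s₂)).exists_max_image id (card_pos.1 (by
    by_contra! i
    rw [Nat.le_zero.1 i] at f2
    omega))
  have i3 := card_le_card (t := range (d + 1)) fun x i => mem_range.2 (Nat.lt_succ_of_le (i2 x i))
  rw [card_range] at i3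
  replace i3 := f2.trans (Nat.mul_le_mul_left _ i3)
  obtain ⟨i1, i2⟩ := mem_Z.1 i1
  have d0 : 0 < d := by
    rcases d with _ | d
    · omega
    omega
  have j1 : 16 * q * L₂ ≤ n t := by nlinarith [Nat.zero_le (q * c * L₂)]
  have n0 : 0 < n t := by nlinarith
  obtain ⟨u, hu, v, hv, i, j⟩ := n9 (Z (A t) (2 * L₁) s₁ (k₀ + q * s₁)) (Z (A t) (n t) s k₀) (m := m) d0 (fun x j => by
    obtain ⟨j, l⟩ := mem_Z.1 j
    refine ⟨mem_Z.2 ⟨by nlinarith, D.mono (D.mul q l) (le_max_right ..) le_rfl⟩, Nat.le_of_mul_le_mul_left ?_ p⟩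
    nlinarith [Nat.mul_le_mul_left q j.le, Nat.mul_le_mul_left q i1.le]) p fun g j => by
      have w := Nat.mul_le_mul_left (c * q) (show g ≤ 4 * L₂ by omega)
      have := f3 (q * g) (by nlinarith [Nat.zero_le (q * c * L₂), Nat.zero_le (q * L₂)]) (dvd_mul_right ..)
      have l : n t < 32 * q * c₁ * #(Z (A t) (2 * L₁) s₁ (k₀ + q * s₁)) + 1 := by
        nlinarith [Nat.mul_le_mul_left (32 * q) f1, Nat.mul_le_mul_left (16 * q) (show 1 ≤ L₁ by omega)]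
      by_contra! o
      have : 0 < #(Z (A t) (2 * L₁) s₁ (k₀ + q * s₁)) := by
        by_contra! i
        rw [Nat.le_zero.1 i] at f1
        omega
      nlinarith [Nat.mul_le_mul_left (32 * q * c₁) o]
  have o : q * i ≤ I := by
    refine Nat.le_of_mul_le_mul_right (le_trans (b := n t) (by omega) ?_) d0
    have : L₂ + 1 ≤ 4 * c₂ * d := by nlinarith [Nat.mul_le_mul_left c₂ (show 1 ≤ d from d0)]
    simp only [I]
    nlinarith [Nat.mul_le_mul_left (16 * q * (c + 1)) this]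
  rw [e1, ← j]
  exact D.add (D.add (D.mono (mem_Z.1 hu).2 le_rfl ((Nat.le_add_right ..).trans (le_max_right ..)))
    (D.mono (mem_Z.1 hv).2 le_rfl (le_max_right ..))) (D.mono (D.mul _ (D.mono i2 le_rfl (add_le_add le_rfl
    (Nat.mul_le_mul_right _ o)))) (Nat.mul_le_mul_right _ o) le_rfl)

end Pool.Agent.H.MP_4f8442_nt
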