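import Pool.Agent.H.MP_4f8442_nt.B

set_option autoImplicit false

namespace Pool.Agent.H.MP_4f8442_nt

open Finset Filter

open Classical in
theorem core (h : ℕ) : ∃ t, ∀ A : Set ℕ, (∀ᶠ y in atTop, R A h y) → (∀ q, {a ∈ A | ¬q ∣ a}.Finite → ∀ᶠ n in atTop,
    ∃ S : Finset ℕ, (∀ a ∈ S, a ∈ A ∧ ¬q ∣ a) ∧ ∑ a ∈ S, a ≡ n [MOD q]) → ∀ᶠ n in atTop, R' A t n := by
  by_contra! c
  choose A a b c using c
  choose N hN using fun t => eventually_atTop.1 (a t)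
  have : ∀ t, ∃ M, t * (N t + 1) ≤ M ∧ ∀ q ∈ range (t + 1), #{e ∈ range (M + 1) | e ∈ A t ∧ ¬q ∣ e} ≤ t →
      ∀ e ∈ A t, ¬q ∣ e → e ≤ M := fun t => ((eventually_ge_atTop _).and ((eventually_all_finset _).2 fun q _ => by
    by_cases d : {a ∈ A t | ¬q ∣ a}.Finite
    · obtain ⟨B, d⟩ := d.bddAbove
      exact (eventually_ge_atTop B).mono fun M e _ x f g => (d ⟨f, g⟩).trans e
    obtain ⟨S, d, e⟩ := Set.Infinite.exists_subset_card_eq d (t + 1)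
    obtain ⟨B, f⟩ := S.bddAbove
    refine (eventually_ge_atTop B).mono fun M g i => absurd ((card_le_card (s := S) fun x j => ?_).trans i) (by omega)
    exact mem_filter.2 ⟨mem_range.2 (Nat.lt_succ_of_le ((f j).trans g)), d j⟩)).exists
  choose M hM hM' using this
  have : ∀ t, ∃ n, ¬R' (A t) t n ∧ t * M t ≤ n ∧ ∀ q ∈ range (t + 1), ∃ S : Finset ℕ, {a ∈ A t | ¬q ∣ a}.Finite →
      (∀ a ∈ S, a ∈ A t ∧ ¬q ∣ a) ∧ ∑ a ∈ S, a ≡ n [MOD q] := fun t => ((c t).and_eventually ((eventually_ge_atTop _).and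
    ((eventually_all_finset _).2 fun q _ => by
      by_cases d : {a ∈ A t | ¬q ∣ a}.Finite
      · exact (b t q d).mono fun _ e => e.imp fun _ e _ => e
      exact .of_forall fun _ => ⟨∅, fun e => absurd e d⟩))).exists
  choose n n1 n2 n3 using this
  have ge : ∀ C, ∀ᶠ t in hyperfilter ℕ, C ≤ t := fun C => (eventually_ge_atTop C).filter_mono Nat.hyperfilter_le_atTop
  obtain ⟨q, p, C, d, e⟩ := main (U := hyperfilter ℕ) (n := n) (M := M) hN (fun C => (ge C).mono fun t d =>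
    (Nat.mul_le_mul_right _ d).trans (hM t)) fun C => (ge C).mono fun t d => (Nat.mul_le_mul_right _ d).trans (n2 t)
  have : ∀ᶠ t in hyperfilter ℕ, ∃ S : Finset ℕ, ↑S ⊆ A t ∧ #S ≤ C ∧ 2 * ∑ a ∈ S, a ≤ n t ∧ ∑ a ∈ S, a ≡ n t [MOD q] := by
    filter_upwards [d, ge q, ge (2 * C)] with t f g i
    have j := hM' t q (mem_range.2 (by omega)) (by omega)
    obtain ⟨S, l⟩ := n3 t q (mem_range.2 (by omega))
    obtain ⟨l, o⟩ := l ((Set.finite_Iic (M t)).subset fun x l => j x l.1 l.2)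
    have r : #S ≤ C := (card_le_card fun x r => mem_filter.2 ⟨mem_range.2 (Nat.lt_succ_of_le (j x (l x r).1 (l x r).2)),
      l x r⟩).trans f
    refine ⟨S, fun x r => (l x r).1, r, ?_, o⟩
    have := sum_le_card_nsmul S (fun a => a) (M t) fun x r => j x (l x r).1 (l x r).2
    rw [smul_eq_mul] at this
    nlinarith [Nat.mul_le_mul_right (M t) r, Nat.mul_le_mul_right (M t) i, n2 t]
  obtain ⟨S, hS⟩ := this.choice
  obtain ⟨s, e⟩ := e (fun t => n t - ∑ a ∈ S t, a) (hS.mono fun t f =>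
    ⟨(Nat.modEq_iff_dvd' (by omega)).1 f.2.2.2, by omega, by omega⟩) C
  obtain ⟨t, ⟨f, g⟩, i⟩ := ((e.and hS).and (ge (s + C))).exists
  obtain ⟨T, j1, j2, j3, j4⟩ := f (S t) g.2.1
  exact n1 t ⟨T ∪ S t, by simp [j1, g.1], (card_union_le ..).trans (by omega), by rw [sum_union j2]; omega⟩

theorem stable (A : Set ℕ) (h : ∀ F : Finset ℕ, ∃ k : ℕ, ∀ᶠ n in atTop,
    ∃ s : Multiset ℕ, (∀ x ∈ s, x ∈ A ∧ x ∉ F) ∧ Multiset.card s ≤ k ∧ s.sum = n) : ∃ t, ∀ᶠ n in atTop, R' A t n := by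
  obtain ⟨k, a⟩ := h ∅
  refine (core k).imp fun t b => b A (a.mono fun _ ⟨s, c, d, e⟩ => ⟨s, d, fun x f => (c x f).1, e⟩) fun q c => ?_
  obtain ⟨k, a⟩ := h c.toFinset
  obtain ⟨N, a⟩ := eventually_atTop.1 (a.mono (q := (q ∣ ·)) fun _ ⟨s, d, _, e⟩ => e ▸ Multiset.dvd_sum fun x f => by
    simpa [(d x f).1] using (d x f).2)
  obtain rfl := Nat.dvd_one.1 ((Nat.dvd_add_right (a N le_rfl)).1 (a (N + 1) (by omega)))
  exact .of_forall fun _ => ⟨∅, by simp, Nat.modEq_one⟩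

end Pool.Agent.H.MP_4f8442_nt
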